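import Pool.Agent.H43.PJ.H91.EHA.SwK1

/-!
# TP PntI: primes in intervals of relative length `L^(-K)`

`psi_ap` (`H91/EHA/SwK1.lean:229`, with `c = 1`, exponent `K + 2`, `x → X2 = (x+l)/d ≥ N^e0`): `∑_{n ∈ (X1, X2]} Lam n ≤ X2 - X1 + 2 X2/log X2^(K+2)`, `X1 = x/d`, `X2 = (x+l)/d` natural division, `X2 - X1 ≤ l/d + 1`,
`X2 ≤ 2x/d`, `log X2 ≥ e0 L`; each prime of `(X1, X2]` counts at least `log X1 ≥ log (x/d) - small`.
-/

set_option autoImplicit false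

namespace Pool.Agent.H76.TP

open Finset

/-- The eventual inequalities used. -/
private theorem PntI_ev (K x0 : ℕ) (ε e0 C : ℝ) (hε : 0 < ε) (he0 : 0 < e0) : ∃ N0 : ℕ, ∀ N : ℕ, N0 ≤ N →
    1 ≤ Real.log N ∧ (2 : ℝ) ≤ (N : ℝ) ^ (e0 / 2) ∧ (x0 : ℝ) ≤ (N : ℝ) ^ (e0 / 2) ∧
      Real.log N ^ K ≤ ε / 2 * (N : ℝ) ^ e0 ∧ C ≤ ε / 2 * Real.log N ^ 2 := by
  have hN : Filter.Tendsto (fun N : ℕ => (N : ℝ)) Filter.atTop Filter.atTop := tendsto_natCast_atTop_atTop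
  have hL : Filter.Tendsto (fun N : ℕ => Real.log (N : ℝ)) Filter.atTop Filter.atTop :=
    Real.tendsto_log_atTop.comp hN
  have hP : Filter.Tendsto (fun N : ℕ => (N : ℝ) ^ (e0 / 2)) Filter.atTop Filter.atTop :=
    (tendsto_rpow_atTop (half_pos he0)).comp hN
  have h1 := hL.eventually (Filter.eventually_ge_atTop (1 : ℝ))
  have h2 := hP.eventually (Filter.eventually_ge_atTop (2 : ℝ))
  have h3 := hP.eventually (Filter.eventually_ge_atTop (x0 : ℝ))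
  have h4 := hN.eventually ((isLittleO_log_rpow_rpow_atTop (K : ℝ) he0).def (half_pos hε))
  have h5 := hL.eventually (Filter.eventually_ge_atTop (max 1 (2 * C / ε)))
  have h6 := Filter.eventually_ge_atTop (α := ℕ) 1
  obtain ⟨N0, hN0⟩ := Filter.eventually_atTop.mp
    (h1.and (h2.and (h3.and (h4.and (h5.and h6)))))
  refine ⟨N0, fun N hNN => ?_⟩
  obtain ⟨g1, g2, g3, g4, g5, g6⟩ := hN0 N hNN
  refine ⟨g1, g2, g3, ?_, ?_⟩
  · have hlog0 : 0 ≤ Real.log (N : ℝ) := by linarith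
    rw [Real.norm_of_nonneg (Real.rpow_nonneg hlog0 _), Real.norm_of_nonneg (Real.rpow_nonneg (Nat.cast_nonneg N) _),
      Real.rpow_natCast] at g4
    exact g4
  · have ga : (1 : ℝ) ≤ Real.log N := le_trans (le_max_left _ _) g5
    have gb : 2 * C / ε ≤ Real.log N := le_trans (le_max_right _ _) g5
    rw [div_le_iff₀ hε] at gb
    have gc : Real.log (N : ℝ) * ε ≤ Real.log (N : ℝ) ^ 2 * ε := by
      refine mul_le_mul_of_nonneg_right ?_ hε.le
      nlinarith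
    linarith

/-- A prime in the interval counts at least `log (x/d)`. -/
private theorem PntI_card (x l d : ℕ) (hd : 1 ≤ d) (hx : 1 ≤ (x : ℝ) / d) :
    (((Ioc (x / d) ((x + l) / d)).filter Nat.Prime).card : ℝ) * Real.log ((x : ℝ) / d) ≤
      ∑ n ∈ Ioc (x / d) ((x + l) / d), Pool.Agent.H91.EHA.Lam n := by
  have hdR : (0 : ℝ) < d := by exact_mod_cast hd
  have h1 : ∑ n ∈ (Ioc (x / d) ((x + l) / d)).filter Nat.Prime, Pool.Agent.H91.EHA.Lam n ≤
      ∑ n ∈ Ioc (x / d) ((x + l) / d), Pool.Agent.H91.EHA.Lam n :=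
    sum_le_sum_of_subset_of_nonneg (filter_subset _ _)
      (fun _ _ _ => ArithmeticFunction.vonMangoldt_nonneg)
  refine le_trans ?_ h1
  rw [← nsmul_eq_mul]
  refine card_nsmul_le_sum _ _ _ fun p hp => ?_
  obtain ⟨hp1, hpp⟩ := mem_filter.mp hp
  obtain ⟨ha, _⟩ := mem_Ioc.mp hp1
  have hl : Pool.Agent.H91.EHA.Lam p = Real.log p := ArithmeticFunction.vonMangoldt_apply_prime hpp
  rw [hl]
  refine Real.log_le_log (by linarith) ?_
  have h2 : x < p * d := by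
    have := (Nat.div_lt_iff_lt_mul (by omega : 0 < d)).mp ha
    exact this
  rw [div_le_iff₀ hdR]
  exact_mod_cast h2.le

/-- The sum over the interval is a difference of `psiA`. -/
private theorem PntI_psi (X1 X2 : ℕ) (h : X1 ≤ X2) :
    ∑ n ∈ Ioc X1 X2, Pool.Agent.H91.EHA.Lam n = Pool.Agent.H91.EHA.psiA X2 1 0 - Pool.Agent.H91.EHA.psiA X1 1 0 := by
  have hf : ∀ X : ℕ, Pool.Agent.H91.EHA.psiA X 1 0 = ∑ n ∈ Icc 1 X, Pool.Agent.H91.EHA.Lam n := by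
    intro X
    unfold Pool.Agent.H91.EHA.psiA
    rw [filter_true_of_mem]
    intro n _
    exact Nat.modEq_one
  rw [hf, hf]
  have hu : Icc 1 X2 = Icc 1 X1 ∪ Ioc X1 X2 := by
    ext n
    simp only [mem_Icc, mem_union, mem_Ioc]
    omega
  have hdj : Disjoint (Icc 1 X1) (Ioc X1 X2) := by
    rw [disjoint_left]
    intro n h1 h2
    rw [mem_Icc] at h1
    rw [mem_Ioc] at h2
    omega
  rw [hu, sum_union hdj]
  ring

theorem pnt_int (K : ℕ) (ε e0 : ℝ) (hε : 0 < ε) (he0 : 0 < e0) : ∃ N0 : ℕ, ∀ N : ℕ, N0 ≤ N → ∀ x l d : ℕ,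
    1 ≤ d → (N : ℝ) ^ e0 * d ≤ x → x ≤ N ^ 2 → (x : ℝ) / Real.log N ^ K ≤ l → l ≤ x →
      (((Ioc (x / d) ((x + l) / d)).filter Nat.Prime).card : ℝ) ≤ (1 + ε) * l / (d * Real.log ((x : ℝ) / d)) := by
  have hhe : (0 : ℝ) < e0 / 2 := half_pos he0
  obtain ⟨x0, hx0⟩ := Pool.Agent.H91.EHA.psi_ap 0 (K + 2)
  obtain ⟨N0, hN0⟩ := PntI_ev K x0 ε e0 (4 / (e0 / 2) ^ (K + 2)) hε he0
  refine ⟨N0, fun N hN x l d hd hxd _ hl hlx => ?_⟩
  obtain ⟨g1, g2, g3, g4, g5⟩ := hN0 N hN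
  have hdR : (0 : ℝ) < d := by exact_mod_cast hd
  have hL0 : (0 : ℝ) < Real.log N := by linarith
  have hNpos : (0 : ℝ) < N := by
    rcases (Nat.cast_nonneg N : (0 : ℝ) ≤ N).lt_or_eq with h | h
    · exact h
    · rw [← h, Real.log_zero] at g1
      linarith
  have hsplit : (N : ℝ) ^ e0 = (N : ℝ) ^ (e0 / 2) * (N : ℝ) ^ (e0 / 2) := by
    rw [← Real.rpow_add hNpos]
    congr 1
    ring
  have hxdR : (N : ℝ) ^ e0 ≤ (x : ℝ) / d := by
    rw [le_div_iff₀ hdR]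
    exact hxd
  have hbig : (N : ℝ) ^ (e0 / 2) + 1 ≤ (N : ℝ) ^ e0 := by
    rw [hsplit]
    nlinarith
  have hx1 : (1 : ℝ) < (x : ℝ) / d := by linarith
  have hlog : 0 < Real.log ((x : ℝ) / d) := Real.log_pos hx1
  -- the interval
  have hX12 : x / d ≤ (x + l) / d := Nat.div_le_div_right (by omega)
  have hX1 : (x : ℝ) / d - 1 < ((x / d : ℕ) : ℝ) := by
    have h := Nat.lt_floor_add_one ((x : ℝ) / d)
    rw [Nat.floor_div_eq_div] at h
    linarith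
  have hX2 : (((x + l) / d : ℕ) : ℝ) ≤ ((x : ℝ) + l) / d := by
    have h := Nat.cast_div_le (α := ℝ) (m := x + l) (n := d)
    rw [Nat.cast_add] at h
    exact h
  have hlR : (l : ℝ) ≤ x := by exact_mod_cast hlx
  have hX2' : (((x + l) / d : ℕ) : ℝ) ≤ 2 * ((x : ℝ) / d) := by
    refine le_trans hX2 ?_
    rw [add_div]
    have : (l : ℝ) / d ≤ (x : ℝ) / d := div_le_div_of_nonneg_right hlR hdR.le
    linarith
  have hX1e : (N : ℝ) ^ (e0 / 2) ≤ ((x / d : ℕ) : ℝ) := by linarith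
  have hX12R : ((x / d : ℕ) : ℝ) ≤ (((x + l) / d : ℕ) : ℝ) := by exact_mod_cast hX12
  have hX2e : (N : ℝ) ^ (e0 / 2) ≤ (((x + l) / d : ℕ) : ℝ) := le_trans hX1e hX12R
  have hx0X : x0 ≤ (x + l) / d := by
    have : (x0 : ℝ) ≤ (((x + l) / d : ℕ) : ℝ) := le_trans g3 hX2e
    exact_mod_cast this
  have hlogX2 : e0 / 2 * Real.log N ≤ Real.log (((x + l) / d : ℕ) : ℝ) := by
    rw [← Real.log_rpow hNpos]
    exact Real.log_le_log (by linarith) hX2e
  have hA := hx0 ((x + l) / d) hx0X ((x + l) / d) le_rfl 1 le_rfl (by simp) 0 (Nat.coprime_one_right 0)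
  have hB := hx0 ((x + l) / d) hx0X (x / d) hX12 1 le_rfl (by simp) 0 (Nat.coprime_one_right 0)
  rw [Nat.totient_one, Nat.cast_one, div_one] at hA hB
  have hA' := (abs_le.mp hA).2
  have hB' := (abs_le.mp hB).1
  have hcard := PntI_card x l d hd hx1.le
  rw [PntI_psi _ _ hX12] at hcard
  -- the error term
  have hpow : (e0 / 2 * Real.log N) ^ (K + 2) ≤ Real.log (((x + l) / d : ℕ) : ℝ) ^ (K + 2) :=
    pow_le_pow_left₀ (by positivity) hlogX2 _
  have hpow0 : 0 < (e0 / 2 * Real.log N) ^ (K + 2) := by positivity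
  have herr : (((x + l) / d : ℕ) : ℝ) / Real.log (((x + l) / d : ℕ) : ℝ) ^ (K + 2) ≤
      2 * ((x : ℝ) / d) / (e0 / 2 * Real.log N) ^ (K + 2) :=
    div_le_div₀ (by positivity) hX2' hpow0 hpow
  have hLK : 0 < Real.log N ^ K := by positivity
  have hxl : (x : ℝ) ≤ l * Real.log N ^ K := by
    rw [div_le_iff₀ hLK] at hl
    exact hl
  have hxld : (x : ℝ) / d ≤ (l : ℝ) / d * Real.log N ^ K := by
    rw [div_mul_eq_mul_div]
    exact div_le_div_of_nonneg_right hxl hdR.le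
  have herr2 : 2 * (2 * ((x : ℝ) / d) / (e0 / 2 * Real.log N) ^ (K + 2)) ≤ ε / 2 * ((l : ℝ) / d) := by
    have hb1 : 2 * (2 * ((x : ℝ) / d) / (e0 / 2 * Real.log N) ^ (K + 2)) =
        4 / (e0 / 2) ^ (K + 2) * ((x : ℝ) / d) / (Real.log N ^ K * Real.log N ^ 2) := by
      rw [mul_pow, pow_add (Real.log N) K 2]
      field_simp
      ring
    rw [hb1, div_le_iff₀ (by positivity)]
    have hb2 : 4 / (e0 / 2) ^ (K + 2) * ((x : ℝ) / d) ≤
        (ε / 2 * Real.log N ^ 2) * ((l : ℝ) / d * Real.log N ^ K) :=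
      mul_le_mul g5 hxld (by positivity) (by positivity)
    refine le_trans hb2 (le_of_eq ?_)
    ring
  have hone : (1 : ℝ) ≤ ε / 2 * ((l : ℝ) / d) := by
    have hc1 : (N : ℝ) ^ e0 ≤ (l : ℝ) / d * Real.log N ^ K := le_trans hxdR hxld
    have hN0' : 0 < (N : ℝ) ^ e0 := Real.rpow_pos_of_pos hNpos _
    have hld : 0 ≤ (l : ℝ) / d := by positivity
    have hc2 : (N : ℝ) ^ e0 ≤ (l : ℝ) / d * (ε / 2 * (N : ℝ) ^ e0) :=
      le_trans hc1 (mul_le_mul_of_nonneg_left g4 hld)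
    have hc3 : 1 * (N : ℝ) ^ e0 ≤ (ε / 2 * ((l : ℝ) / d)) * (N : ℝ) ^ e0 := by
      rw [one_mul]
      refine le_trans hc2 (le_of_eq ?_)
      ring
    exact le_of_mul_le_mul_right hc3 hN0'
  have hmain : (((Ioc (x / d) ((x + l) / d)).filter Nat.Prime).card : ℝ) * Real.log ((x : ℝ) / d) ≤
      (1 + ε) * ((l : ℝ) / d) := by
    have hX2s : (((x + l) / d : ℕ) : ℝ) ≤ (x : ℝ) / d + (l : ℝ) / d := by
      rw [← add_div]
      exact hX2
    linarith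
  have hfin : (1 + ε) * (l : ℝ) / (d * Real.log ((x : ℝ) / d)) = (1 + ε) * ((l : ℝ) / d) / Real.log ((x : ℝ) / d) := by
    rw [mul_div_assoc, ← div_div, mul_div_assoc]
  rw [hfin, le_div_iff₀ hlog]
  exact hmain

end Pool.Agent.H76.TP
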