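import Pool.Agent.H43.PJ.M47
import Pool.Agent.H43.PJ.M50
import Pool.Agent.H43.PJ.M84
import Pool.Agent.H43.PJ.M85

/-!
# TP SvBB: the sieve black box

`w = R = ⌊L^B⌋`, `r = ⌊√L⌋`, `y = ⌊N^e1⌋`, `D = ⌊N^(e4/40)⌋`, `Q = w^(2r) D² ≤ N^(e4/12)`.  `ρ` = Selberg's weights (`H87T/SelW.lean`, `P = PY w y`, `g p = 1/p`; `g/(1-g) = 1/(p-1)`), `SF w y ρ = 1/GD w y D`,
`S = SS w y r ρ`, `kS = VV (PW w) / GD w y D`.
* `S ≥ rg`, `S ≥ 0`: `SvA`.  `Bs`: `tyI_bs` with `δ = 2^(-r)` (`gs_sing`), `B ≥ 2A + 10`, `6(1 + log Q)^3 ≤ L^4`.  Second moment: `tyI_sq`.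
* mean: `buc` with `ρ p` = Selberg's weights for `PY w (p-1)`; `SF w (p-1) (ρ p) = 1/GD w (p-1) D ≤ VV (PY w (p-1)) (1 + 2C exp(-log D/log p))` by `gup` (for `C exp(-log D/log y) ≤ 1/2`: `e1` small) and
  `VV (PW w) VV (PY w (p-1)) = VV (PW (p-1))`; `vbuch`, `vsum`: `∑_{(x,x+l]} rg ≥ l (VV (PW y) - (2C C'/log y) exp(-log D/log y)) - error`, and `kS ≤ VV (PW y)(1 + 2C exp(-log D/log y))`, `VV (PW y) ≤ C''/log y`.
  `log y ≥ e1 L/2`, `exp(-log D/log y) ≤ exp(-e4/(50 e1))`, `(1/e1) exp(-e4/(50 e1)) → 0` as `e1 → 0`.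
-/

set_option autoImplicit false

namespace Pool.Agent.H76.TP

open Finset
open Pool.Agent.H91.PK (ee)
open Pool.Agent.H91.EHA (Lam hR lamR ramS)
open Pool.Agent.H53.MID (Fp Bs)

private theorem SvBB_mem (w y p : ℕ) (hp : p ∈ PY w y) : w < p ∧ p ≤ y ∧ p.Prime := by
  unfold PY at hp
  rw [mem_filter, mem_Ioc] at hp
  exact ⟨hp.1.1, hp.1.2, hp.2⟩

private theorem SvBB_VV_nonneg (T : Finset ℕ) (h : ∀ p ∈ T, 1 ≤ p) : 0 ≤ VV T := by
  unfold VV
  refine prod_nonneg fun p hp => ?_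
  have h1 : (1 : ℝ) ≤ p := by exact_mod_cast h p hp
  have h2 : 1 / (p : ℝ) ≤ 1 := by
    rw [div_le_one (by linarith)]
    exact h1
  linarith

private theorem SvBB_VV_le (T : Finset ℕ) (h : ∀ p ∈ T, 1 ≤ p) : VV T ≤ 1 := by
  unfold VV
  refine prod_le_one (fun p hp => ?_) fun p hp => ?_
  · have h1 : (1 : ℝ) ≤ p := by exact_mod_cast h p hp
    have h2 : 1 / (p : ℝ) ≤ 1 := by
      rw [div_le_one (by linarith)]
      exact h1
    linarith
  · have : 0 ≤ 1 / (p : ℝ) := by positivity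
    linarith only [this]

private theorem SvBB_PW (w : ℕ) : ∀ p ∈ PW w, 1 ≤ p := by
  intro p hp
  unfold PW at hp
  rw [mem_filter, mem_Icc] at hp
  exact hp.1.1

private theorem SvBB_PY (w y : ℕ) : ∀ p ∈ PY w y, 1 ≤ p := by
  intro p hp
  have := SvBB_mem w y p hp
  omega

private theorem SvBB_mul (w y : ℕ) (h : w ≤ y) : VV (PW w) * VV (PY w y) = VV (PW y) := by
  have h1 : PW y = PW w ∪ PY w y := by
    ext p
    unfold PW PY
    simp only [mem_union, mem_filter, mem_Icc, mem_Ioc]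
    constructor
    · rintro ⟨⟨a, b⟩, c⟩
      rcases Nat.lt_or_ge w p with h2 | h2
      · exact Or.inr ⟨⟨h2, b⟩, c⟩
      · exact Or.inl ⟨⟨a, h2⟩, c⟩
    · rintro (⟨⟨a, b⟩, c⟩ | ⟨⟨a, b⟩, c⟩)
      · exact ⟨⟨a, by omega⟩, c⟩
      · exact ⟨⟨by omega, b⟩, c⟩
  have h2 : Disjoint (PW w) (PY w y) := by
    rw [Finset.disjoint_left]
    intro p hp hp2
    have h3 := SvBB_mem w y p hp2
    unfold PW at hp
    rw [mem_filter, mem_Icc] at hp
    omega
  rw [h1]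
  unfold VV
  rw [prod_union h2]

private theorem SvBB_GD (w y D : ℕ) (hD : 1 ≤ D) : 1 ≤ GD w y D := by
  unfold GD
  have h1 : ∏ p ∈ (∅ : Finset ℕ), (1 / ((p : ℝ) - 1)) = 1 := prod_empty
  rw [← h1]
  refine single_le_sum (f := fun A : Finset ℕ => ∏ p ∈ A, (1 / ((p : ℝ) - 1))) (fun A hA => ?_) ?_
  · rw [mem_filter, mem_powerset] at hA
    refine prod_nonneg fun p hp => ?_
    have h2 : (1 : ℝ) ≤ p := by exact_mod_cast SvBB_PY w y p (hA.1 hp)
    have h3 : (0 : ℝ) ≤ (p : ℝ) - 1 := by linarith only [h2]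
    positivity
  · rw [mem_filter, mem_powerset]
    refine ⟨empty_subset _, ?_⟩
    rw [prod_empty]
    exact hD

/-- Selberg's weights -/
private theorem SvBB_sel (w y D : ℕ) (hw : 1 ≤ w) (hD : 1 ≤ D) :
    ∃ ρ : Finset ℕ → ℝ, Rho w y D ρ ∧ SF w y ρ = 1 / GD w y D := by
  obtain ⟨ρ, h1, h2, h3, h4⟩ := Pool.Agent.H87T.sel_weights (PY w y) (SvBB_PY w y) (fun p => 1 / (p : ℝ))
    (fun p hp => by
      have h5 := SvBB_mem w y p hp
      have h6 : (1 : ℝ) < p := by exact_mod_cast (by omega : 1 < p)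
      refine ⟨by positivity, ?_⟩
      rw [div_lt_one (by linarith only [h6])]
      exact h6) D hD
  refine ⟨ρ, ⟨h1, h2, h3⟩, ?_⟩
  have h7 : ∑ A ∈ (PY w y).powerset.filter (fun A => ∏ p ∈ A, p ≤ D), ∏ p ∈ A,
      ((1 / (p : ℝ)) / (1 - 1 / (p : ℝ))) = GD w y D := by
    unfold GD
    refine sum_congr rfl fun A hA => ?_
    rw [mem_filter, mem_powerset] at hA
    refine prod_congr rfl fun p hp => ?_
    have h5 := SvBB_mem w y p (hA.1 hp)
    have h6 : (1 : ℝ) < p := by exact_mod_cast (by omega : 1 < p)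
    have h8 : (p : ℝ) ≠ 0 := by linarith only [h6]
    have h9 : (p : ℝ) - 1 ≠ 0 := by linarith only [h6]
    field_simp
  rw [h7] at h4
  have h10 : 0 < GD w y D := lt_of_lt_of_le one_pos (SvBB_GD w y D hD)
  rw [eq_div_iff h10.ne']
  exact h4

private theorem SvBB_adm (w y r D : ℕ) (ρ : Finset ℕ → ℝ) (hw : 1 ≤ w) (hwy : w ≤ y) (hρ : Rho w y D ρ) :
    Adm (w ^ (2 * r) * D ^ 2) (gS w y r ρ) (SS w y r ρ) := by
  refine ⟨fun n hn => ?_, fun n => gs_abs w y r D ρ hρ n, fun m hm => ss_exp w y r D ρ hw hwy hρ m hm⟩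
  unfold gS
  rw [if_neg]
  rintro ⟨h, -⟩
  exact hn h

/-- `1/GD ≤ VV (PY) (1 + 2t)` -/
private theorem SvBB_inv (C : ℝ) (hC : 0 < C) (hg : ∀ w y D : ℕ, 2 ≤ w → w ≤ y → 1 ≤ D →
    1 - C * Real.exp (-(Real.log D / Real.log y)) ≤ VV (PY w y) * GD w y D) (w y D : ℕ) (hw : 2 ≤ w)
    (hwy : w ≤ y) (hD : 1 ≤ D) (t : ℝ) (ht : C * Real.exp (-(Real.log D / Real.log y)) ≤ t) (ht2 : t ≤ 1 / 2) :
    VV (PW w) * (1 / GD w y D) ≤ VV (PW y) * (1 + 2 * t) := by
  have h1 := hg w y D hw hwy hD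
  have h2 : 0 < GD w y D := lt_of_lt_of_le one_pos (SvBB_GD w y D hD)
  have ht0 : 0 ≤ t := le_trans (by positivity) ht
  rw [← SvBB_mul w y hwy, mul_assoc]
  refine mul_le_mul_of_nonneg_left ?_ (SvBB_VV_nonneg _ (SvBB_PW w))
  rw [div_le_iff₀ h2]
  have h3 : 1 - t ≤ VV (PY w y) * GD w y D := by linarith only [ht, h1]
  have h4 : (1 - t) * (1 + 2 * t) ≤ VV (PY w y) * GD w y D * (1 + 2 * t) :=
    mul_le_mul_of_nonneg_right h3 (by linarith only [ht0])
  have h5 : 1 ≤ (1 - t) * (1 + 2 * t) := by nlinarith only [ht2, ht0]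
  calc (1 : ℝ) ≤ _ := h5.trans h4
    _ = VV (PY w y) * (1 + 2 * t) * GD w y D := by ring

/-- `(1/e1) exp(-e4/(50 e1))` is small -/
private theorem SvBB_small (e4 K δ : ℝ) (he4 : 0 < e4) (hK : 0 < K) (hδ : 0 < δ) :
    ∃ e10 : ℝ, 0 < e10 ∧ ∀ e1 : ℝ, 0 < e1 → e1 ≤ e10 → K / e1 * Real.exp (-(e4 / (50 * e1))) ≤ δ := by
  refine ⟨δ * e4 ^ 2 / (5000 * K), by positivity, fun e1 h0 h1 => ?_⟩
  have h2 : (e4 / (50 * e1)) ^ 2 / 2 ≤ Real.exp (e4 / (50 * e1)) := by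
    have := Real.quadratic_le_exp_of_nonneg (show 0 ≤ e4 / (50 * e1) by positivity)
    have h3 : 0 ≤ e4 / (50 * e1) := by positivity
    linarith only [this, h3]
  rw [Real.exp_neg, ← div_eq_mul_inv, div_div, div_le_iff₀ (by positivity)]
  rw [le_div_iff₀ (by positivity)] at h1
  calc K = K := rfl
    _ ≤ δ * (e1 * ((e4 / (50 * e1)) ^ 2 / 2)) := by
        have h4 : δ * (e1 * ((e4 / (50 * e1)) ^ 2 / 2)) = δ * e4 ^ 2 / (5000 * e1) := by
          field_simp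
          ring
        rw [h4, le_div_iff₀ (by positivity)]
        linarith only [h1]
    _ ≤ δ * (e1 * Real.exp (e4 / (50 * e1))) := by
        refine mul_le_mul_of_nonneg_left ?_ hδ.le
        exact mul_le_mul_of_nonneg_left h2 h0.le

/-- the mean value -/
private theorem SvBB_mean (C C1 C2 : ℝ) (hC : 0 < C) (hC1 : 0 < C1) (hC2 : 0 < C2)
    (hg : ∀ w y D : ℕ, 2 ≤ w → w ≤ y → 1 ≤ D →
      1 - C * Real.exp (-(Real.log D / Real.log y)) ≤ VV (PY w y) * GD w y D)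
    (hv : ∀ n : ℕ, 2 ≤ n → VV (PW n) ≤ C1 / Real.log n)
    (hs : ∀ w y D : ℕ, 2 ≤ w → w ≤ y → y ≤ D →
      ∑ p ∈ PY w y, VV (PW (p - 1)) / p * Real.exp (-(Real.log D / Real.log p)) ≤
        C2 / Real.log y * Real.exp (-(Real.log D / Real.log y)))
    (w y r D x l : ℕ) (hw : 2 ≤ w) (hwy : w ≤ y) (hyD : y ≤ D) (hr : 6 * (1 + Real.log w) ≤ r + 1)
    (hE : C * Real.exp (-(Real.log D / Real.log y)) ≤ 1 / 2) :
    VV (PW w) * (1 / GD w y D) * l ≤ ∑ m ∈ Ioc x (x + l), rg y m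
      + l * (2 * C * (C1 + C2) / Real.log y * Real.exp (-(Real.log D / Real.log y)))
      + 2 * l * (2 + Real.log y) / 2 ^ r + 10 * y * ((w : ℝ) ^ (2 * r) * (D : ℝ) ^ 2) ^ 2
      + ((w : ℝ) + 1) ^ (2 * r + 1) := by
  classical
  have hD : 1 ≤ D := by omega
  have hsel : ∀ p : ℕ, ∃ ρ : Finset ℕ → ℝ, Rho w (p - 1) D ρ ∧ SF w (p - 1) ρ = 1 / GD w (p - 1) D :=
    fun p => SvBB_sel w (p - 1) D (by omega) hD
  choose ρ hρ1 hρ2 using hsel
  have hGD : ∀ y' : ℕ, 0 < GD w y' D := fun y' => lt_of_lt_of_le one_pos (SvBB_GD w y' D hD)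
  have hb := buc w y r D x l ρ hw hwy hD hr (fun p _ => ⟨hρ1 p, by
    rw [hρ2 p]; exact (div_pos one_pos (hGD _)).le, by
    rw [hρ2 p, div_le_one (hGD _)]; exact SvBB_GD w (p - 1) D hD⟩)
  have hlogD : 0 ≤ Real.log D := Real.log_natCast_nonneg D
  have hlogy : 0 < Real.log y := Real.log_pos (by exact_mod_cast (by omega : 1 < y))
  -- the sum over the primes
  have h1 : ∑ p ∈ PY w y, VV (PW w) * SF w (p - 1) (ρ p) / p ≤
      ∑ p ∈ PY w y, VV (PW (p - 1)) / p +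
        2 * C * (C2 / Real.log y * Real.exp (-(Real.log D / Real.log y))) := by
    have h2 : ∀ p ∈ PY w y, VV (PW w) * SF w (p - 1) (ρ p) / p ≤ VV (PW (p - 1)) / p +
        2 * C * (VV (PW (p - 1)) / p * Real.exp (-(Real.log D / Real.log p))) := by
      intro p hp
      obtain ⟨p1, p2, p3⟩ := SvBB_mem w y p hp
      have hp0 : (0 : ℝ) < p := by exact_mod_cast (by omega : 0 < p)
      have q1 : 0 < Real.log ((p - 1 : ℕ) : ℝ) := Real.log_pos (by exact_mod_cast (by omega : 1 < p - 1))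
      have q2 : Real.log ((p - 1 : ℕ) : ℝ) ≤ Real.log p :=
        Real.log_le_log (by exact_mod_cast (by omega : 0 < p - 1)) (by exact_mod_cast (by omega))
      have q3 : Real.log p ≤ Real.log y := Real.log_le_log hp0 (by exact_mod_cast p2)
      have q4 : 0 < Real.log (p : ℝ) := by linarith only [q1, q2]
      have q5 : Real.exp (-(Real.log D / Real.log ((p - 1 : ℕ) : ℝ))) ≤ Real.exp (-(Real.log D / Real.log p)) := by
        apply Real.exp_le_exp.2
        have := div_le_div_of_nonneg_left hlogD q1 q2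
        linarith only [this]
      have q6 : Real.exp (-(Real.log D / Real.log p)) ≤ Real.exp (-(Real.log D / Real.log y)) := by
        apply Real.exp_le_exp.2
        have := div_le_div_of_nonneg_left hlogD q4 q3
        linarith only [this]
      have q7 := SvBB_inv C hC hg w (p - 1) D hw (by omega) hD (C * Real.exp (-(Real.log D / Real.log p)))
        (mul_le_mul_of_nonneg_left q5 hC.le) ((mul_le_mul_of_nonneg_left q6 hC.le).trans hE)
      rw [hρ2 p]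
      have q8 := div_le_div_of_nonneg_right q7 hp0.le
      refine q8.trans (le_of_eq ?_)
      ring
    refine (sum_le_sum h2).trans ?_
    rw [sum_add_distrib, ← mul_sum]
    have h3 := mul_le_mul_of_nonneg_left (hs w y D hw hwy hyD) (show 0 ≤ 2 * C by positivity)
    linarith only [h3]
  have h4 := vbuch w y hwy
  have h5 : VV (PW w) * (1 / GD w y D) ≤ VV (PW y) +
      2 * C * (C1 / Real.log y * Real.exp (-(Real.log D / Real.log y))) := by
    have q7 := SvBB_inv C hC hg w y D hw hwy hD _ le_rfl hE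
    have q8 := mul_le_mul_of_nonneg_right (hv y (by omega))
      (show 0 ≤ 2 * C * Real.exp (-(Real.log D / Real.log y)) by positivity)
    calc _ ≤ _ := q7
      _ = VV (PW y) + VV (PW y) * (2 * C * Real.exp (-(Real.log D / Real.log y))) := by ring
      _ ≤ VV (PW y) + C1 / Real.log y * (2 * C * Real.exp (-(Real.log D / Real.log y))) := by linarith only [q8]
      _ = _ := by ring
  have hl : (0 : ℝ) ≤ l := Nat.cast_nonneg l
  have h6 : VV (PW w) * (1 / GD w y D) * l ≤ l * (VV (PW w) - ∑ p ∈ PY w y, VV (PW w) * SF w (p - 1) (ρ p) / p)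
      + l * (2 * C * (C1 + C2) / Real.log y * Real.exp (-(Real.log D / Real.log y))) := by
    have h7 : VV (PW w) * (1 / GD w y D) ≤ (VV (PW w) - ∑ p ∈ PY w y, VV (PW w) * SF w (p - 1) (ρ p) / p)
        + 2 * C * (C1 + C2) / Real.log y * Real.exp (-(Real.log D / Real.log y)) := by
      have h8 : 2 * C * (C1 + C2) / Real.log y * Real.exp (-(Real.log D / Real.log y)) =
          2 * C * (C1 / Real.log y * Real.exp (-(Real.log D / Real.log y))) +
          2 * C * (C2 / Real.log y * Real.exp (-(Real.log D / Real.log y))) := by ring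
      rw [h8]
      linarith only [h1, h4, h5]
    have h9 := mul_le_mul_of_nonneg_left h7 hl
    calc VV (PW w) * (1 / GD w y D) * l = l * (VV (PW w) * (1 / GD w y D)) := by ring
      _ ≤ _ := h9
      _ = _ := by ring
  linarith only [hb, h6]

theorem sieve_bb (e4 ε : ℝ) (he4 : 0 < e4) (hε : 0 < ε) :
    ∃ e10 : ℝ, 0 < e10 ∧ ∀ e1 : ℝ, 0 < e1 → e1 ≤ e10 → ∃ C : ℕ, ∀ A : ℕ, ∃ B0 : ℕ, ∀ B : ℕ, B0 ≤ B → ∃ N0 : ℕ,
      ∀ N : ℕ, N0 ≤ N → ∃ (S : ℕ → ℝ) (kS : ℝ),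
        (∀ m, 1 ≤ m → rg (yN e1 N) m ≤ S m) ∧ (∀ m, 0 ≤ S m) ∧ 0 ≤ kS ∧ kS ≤ 1 ∧
        (∀ (H i : ℕ) (α : ℝ), (N : ℝ) ^ e4 ≤ H → 1 ≤ i →
          ‖Bs (fun m => S m - kS * lamR ⌊Real.log N ^ B⌋₊ m) H i α‖ ≤ H / Real.log N ^ A) ∧
        (∀ u w : ℕ, 1 ≤ u → (N : ℝ) ^ e4 ≤ w → ∑ m ∈ Ico u (u + w), S m ^ 2 ≤ w * Real.log N ^ C) ∧
        (∀ x l : ℕ, (N : ℝ) ^ e4 ≤ l →
          kS * l ≤ ∑ m ∈ Ioc x (x + l), rg (yN e1 N) m + ε * l / Real.log N) := by
  obtain ⟨C, hC, hg⟩ := gup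
  obtain ⟨C1, hC1, hv⟩ := vv_le
  obtain ⟨C2, hC2, hs⟩ := vsum
  obtain ⟨a1, ha1, hs1⟩ := SvBB_small e4 (4 * C * (C1 + C2)) (ε / 2) he4 (by positivity) (by positivity)
  obtain ⟨a2, ha2, hs2⟩ := SvBB_small e4 C (1 / 2) he4 hC (by norm_num)
  refine ⟨min (min a1 a2) (min (e4 / 80) 1), by positivity, fun e1 he1 he1' => ?_⟩
  simp only [le_min_iff] at he1'
  obtain ⟨⟨k1, k2⟩, k3, k4⟩ := he1'
  refine ⟨16, fun A => ⟨2 * A + 10, fun B hB => ?_⟩⟩
  obtain ⟨N0, hN0⟩ := sv_ev e4 e1 ε he4 he1 k3 hε A B (by omega)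
  refine ⟨N0, fun N hN => ?_⟩
  set w := ⌊Real.log N ^ B⌋₊ with hw
  set r := ⌊Real.sqrt (Real.log N)⌋₊ with hr
  set D := ⌊(N : ℝ) ^ (e4 / 40)⌋₊ with hD
  obtain ⟨b1, b2, b3, b4, b5, b6, b7, b8, b9, b10, b11, b12, b13, b14, b15, b16, b17, b18, b19, b20⟩ :=
    hN0 N hN w r D (w ^ (2 * r) * D ^ 2) hw hr hD rfl
  set y := yN e1 N with hy
  set L := Real.log (N : ℝ) with hL
  set Q := w ^ (2 * r) * D ^ 2 with hQ
  have hL0 : 0 < L := by linarith only [b1]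
  have hL1 : 1 ≤ L := by linarith only [b1]
  obtain ⟨ρ, hρ, hSF⟩ := SvBB_sel w y D (by omega) b7
  have hGD1 := SvBB_GD w y D b7
  have hGD : 0 < GD w y D := lt_of_lt_of_le one_pos hGD1
  have hAdm : Adm Q (gS w y r ρ) (SS w y r ρ) := SvBB_adm w y r D ρ (by omega) b3 hρ
  have hQ1 : 1 ≤ Q := by omega
  have hQr : (1 : ℝ) ≤ Q := by exact_mod_cast hQ1
  have hlogQ : 0 ≤ Real.log Q := Real.log_nonneg hQr
  have hkS0 : 0 ≤ VV (PW w) * (1 / GD w y D) :=
    mul_nonneg (SvBB_VV_nonneg _ (SvBB_PW w)) (by positivity)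
  have h2r : (0 : ℝ) < 2 ^ r := by positivity
  refine ⟨SS w y r ρ, VV (PW w) * (1 / GD w y D), fun m hm => ss_ge w y r D ρ b3 hρ m hm,
    fun m => ss_nonneg w y r ρ m, hkS0, ?_, ?_, ?_, ?_⟩
  · -- kS ≤ 1
    refine mul_le_one₀ (SvBB_VV_le _ (SvBB_PW w)) (by positivity) ?_
    rw [div_le_one hGD]
    exact hGD1
  · -- Bs
    intro H i α hH hi
    have hNpos : (0 : ℝ) < (N : ℝ) ^ e4 := by
      have : (0 : ℝ) < (Q : ℝ) ^ 4 := by positivity
      linarith only [b20, this]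
    have hH0 : (0 : ℝ) < H := by linarith only [hH, hNpos]
    have hH1 : 1 ≤ H := by exact_mod_cast Nat.pos_of_ne_zero (fun h => by rw [h] at hH0; norm_num at hH0)
    have key := tyI_bs Q w (gS w y r ρ) (SS w y r ρ) (VV (PW w) * (1 / GD w y D)) (1 / 2 ^ r) hAdm
      (by omega) b19 (by positivity) (fun q hq hqw => by
        rw [← hSF]
        exact gs_sing w y r D q ρ b2 b3 hρ b5 (by rw [hSF]; positivity)
          (by rw [hSF, div_le_one hGD]; exact hGD1) hq hqw) H i hi hH1 α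
    refine key.trans ?_
    have e1 : (1 : ℝ) / 2 ^ r ≤ 1 / (8 * L ^ A) := one_div_le_one_div_of_le (by positivity) b13
    have e2 : 6 * (1 + Real.log Q) ^ 3 / Real.sqrt w ≤ 1 / (2 * L ^ A) := by
      have hw0 : (0 : ℝ) < w := by exact_mod_cast (by omega : 0 < w)
      rw [div_le_div_iff₀ (Real.sqrt_pos.2 hw0) (by positivity)]
      have t1 : 2 * L ^ (A + 4) ≤ Real.sqrt w := by
        apply Real.le_sqrt_of_sq_le
        have t2 : (2 * L ^ (A + 4)) ^ 2 = 4 * L ^ (2 * A + 8) := by ring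
        have t3 : L ^ (2 * A + 8) * 8 ≤ L ^ B := by
          calc L ^ (2 * A + 8) * 8 ≤ L ^ (2 * A + 8) * L := mul_le_mul_of_nonneg_left b1 (by positivity)
            _ = L ^ (2 * A + 9) := by ring
            _ ≤ L ^ B := pow_le_pow_right₀ hL1 (by omega)
        rw [t2]
        linarith only [b4, t3]
      calc 6 * (1 + Real.log Q) ^ 3 * (2 * L ^ A) ≤ L ^ 4 * (2 * L ^ A) :=
            mul_le_mul_of_nonneg_right b11 (by positivity)
        _ = 2 * L ^ (A + 4) := by ring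
        _ ≤ Real.sqrt w := t1
        _ = 1 * Real.sqrt w := (one_mul _).symm
    have e3 : (Q : ℝ) ^ 4 * (1 / 2 ^ r + 6 * (1 + Real.log Q) ^ 3) ≤ H / (4 * L ^ A) := by
      have t1 : (1 : ℝ) / 2 ^ r ≤ 1 := by
        rw [div_le_one h2r]
        exact one_le_pow₀ (by norm_num)
      have t2 : (1 : ℝ) ≤ L ^ 4 := one_le_pow₀ hL1
      have t3 : 1 / 2 ^ r + 6 * (1 + Real.log Q) ^ 3 ≤ 2 * L ^ 4 := by linarith only [b11, t1, t2]
      rw [le_div_iff₀ (by positivity)]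
      calc (Q : ℝ) ^ 4 * (1 / 2 ^ r + 6 * (1 + Real.log Q) ^ 3) * (4 * L ^ A)
          ≤ (Q : ℝ) ^ 4 * (2 * L ^ 4) * (4 * L ^ A) := by
            refine mul_le_mul_of_nonneg_right (mul_le_mul_of_nonneg_left t3 (by positivity)) (by positivity)
        _ = 8 * (Q : ℝ) ^ 4 * L ^ (A + 4) := by ring
        _ ≤ H := b17.trans hH
    have e4' : (H : ℝ) * (1 / 2 ^ r + 6 * (1 + Real.log Q) ^ 3 / Real.sqrt w) ≤
        H * (1 / (8 * L ^ A) + 1 / (2 * L ^ A)) := mul_le_mul_of_nonneg_left (add_le_add e1 e2) hH0.le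
    have e5 : (H : ℝ) * (1 / (8 * L ^ A) + 1 / (2 * L ^ A)) + H / (4 * L ^ A) = 7 / 8 * (H / L ^ A) := by
      field_simp
      ring
    have e6 : 0 < (H : ℝ) / L ^ A := by positivity
    linarith only [e3, e4', e5, e6]
  · -- the second moment
    intro u w' hu hw'
    have hw4 : Q ^ 4 ≤ w' := by
      have : ((Q ^ 4 : ℕ) : ℝ) ≤ w' := by push_cast; exact b20.trans hw'
      exact_mod_cast this
    have key := tyI_sq Q (gS w y r ρ) (SS w y r ρ) hQ1 hAdm u w' hu hw4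
    refine key.trans ?_
    calc 100 * (w' : ℝ) * (1 + 2 * Real.log Q) ^ 15 = w' * (100 * (1 + 2 * Real.log Q) ^ 15) := by ring
      _ ≤ w' * L ^ 16 := mul_le_mul_of_nonneg_left b12 (Nat.cast_nonneg _)
  · -- the mean value
    intro x l hl
    have hl0 : (0 : ℝ) ≤ l := Nat.cast_nonneg _
    have hexp : Real.exp (-(Real.log D / Real.log y)) ≤ Real.exp (-(e4 / (50 * e1))) := by
      apply Real.exp_le_exp.2
      linarith only [b18]
    have hE : C * Real.exp (-(Real.log D / Real.log y)) ≤ 1 / 2 := by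
      have t1 := hs2 e1 he1 k2
      have t2 : C * Real.exp (-(e4 / (50 * e1))) ≤ C / e1 * Real.exp (-(e4 / (50 * e1))) := by
        refine mul_le_mul_of_nonneg_right ?_ (Real.exp_pos _).le
        rw [le_div_iff₀ he1]
        nlinarith only [hC, k4]
      exact (mul_le_mul_of_nonneg_left hexp hC.le).trans (t2.trans t1)
    have key := SvBB_mean C C1 C2 hC hC1 hC2 hg hv hs w y r D x l b2 b3 b6 b5 hE
    refine key.trans ?_
    have hlogy : 0 < Real.log y := lt_of_lt_of_le (by positivity) b9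
    have m1 : (l : ℝ) * (2 * C * (C1 + C2) / Real.log y * Real.exp (-(Real.log D / Real.log y))) ≤
        ε / 2 * l / L := by
      have t1 := hs1 e1 he1 k1
      have t2 : 2 * C * (C1 + C2) / Real.log y ≤ 4 * C * (C1 + C2) / e1 / L := by
        rw [div_div, div_le_div_iff₀ hlogy (by positivity)]
        have t3 := mul_le_mul_of_nonneg_left b9 (show 0 ≤ 4 * C * (C1 + C2) by positivity)
        linarith only [t3]
      have t4 : 2 * C * (C1 + C2) / Real.log y * Real.exp (-(Real.log D / Real.log y)) ≤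
          4 * C * (C1 + C2) / e1 / L * Real.exp (-(e4 / (50 * e1))) :=
        mul_le_mul t2 hexp (Real.exp_pos _).le (by positivity)
      have t5 : 4 * C * (C1 + C2) / e1 / L * Real.exp (-(e4 / (50 * e1))) =
          (4 * C * (C1 + C2) / e1 * Real.exp (-(e4 / (50 * e1)))) / L := by ring
      rw [t5] at t4
      have t6 := t4.trans (div_le_div_of_nonneg_right t1 hL0.le)
      calc _ ≤ (l : ℝ) * (ε / 2 / L) := mul_le_mul_of_nonneg_left t6 hl0
        _ = ε / 2 * l / L := by ring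
    have m2 : 2 * l * (2 + Real.log y) / 2 ^ r ≤ ε / 8 * l / L := by
      rw [div_le_div_iff₀ h2r hL0]
      have t1 := mul_le_mul_of_nonneg_left b14 hl0
      linarith only [t1]
    have m3 : 10 * y * ((w : ℝ) ^ (2 * r) * (D : ℝ) ^ 2) ^ 2 ≤ ε / 8 * l / L := by
      have t0 : (w : ℝ) ^ (2 * r) * (D : ℝ) ^ 2 = Q := by rw [hQ]; push_cast; ring
      rw [t0, le_div_iff₀ hL0]
      have t1 := mul_le_mul_of_nonneg_left hl hε.le
      linarith only [b15, t1]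
    have m4 : ((w : ℝ) + 1) ^ (2 * r + 1) ≤ ε / 8 * l / L := by
      rw [le_div_iff₀ hL0]
      have t1 := mul_le_mul_of_nonneg_left hl hε.le
      linarith only [b16, t1]
    have m5 : ε * l / L = ε / 2 * l / L + ε / 8 * l / L + ε / 8 * l / L + ε / 8 * l / L + ε / 8 * l / L := by ring
    have m6 : 0 ≤ ε / 8 * l / L := by positivity
    rw [m5]
    linarith only [m1, m2, m3, m4, m6]

end Pool.Agent.H76.TP
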